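import Pool.Agent.W581.HQ.Stm

set_option autoImplicit false

/-!
# Superposition of Sverak's kernels
-/

namespace Pool.Agent.W368.HQ

open Set Filter Topology MeasureTheory
open Pool.Agent.W360.MQ (RC)

/-- a function with convex supporting functions is convex -/
theorem convex_of_support {φ : ℝ → ℝ}
    (h : ∀ t0, ∃ ψ : ℝ → ℝ, ConvexOn ℝ univ ψ ∧ (∀ t, ψ t ≤ φ t) ∧ ψ t0 = φ t0) :
    ConvexOn ℝ univ φ := by
  refine ⟨convex_univ, ?_⟩
  intro x _ y _ a b ha hb hab
  obtain ⟨ψ, h1, h2, h3⟩ := h (a • x + b • y)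
  rw [← h3]
  refine (h1.2 (mem_univ x) (mem_univ y) ha hb hab).trans ?_
  exact add_le_add (mul_le_mul_of_nonneg_left (h2 x) ha) (mul_le_mul_of_nonneg_left (h2 y) hb)

theorem int_sub (u0 M : ℝ) : ∫ u in u0..M, (u - u0) = (M - u0) ^ 2 / 2 := by
  rw [intervalIntegral.integral_sub (by simp) (by simp), integral_id,
    intervalIntegral.integral_const, smul_eq_mul]
  ring

/-- the trapezoid inequality -/
theorem trapezoid {k : ℝ → ℝ} (hc : ConvexOn ℝ (Ici 0) k) (hcont : ContinuousOn k (Ici 0))
    {u0 M : ℝ} (h0 : 0 ≤ u0) (hM : u0 ≤ M) (hk : k u0 = 0) :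
    ∫ u in u0..M, k u ≤ (M - u0) * k M / 2 := by
  rcases hM.eq_or_lt with h | h
  · subst h
    simp
  have hMu : 0 < M - u0 := by linarith
  have h1 : ∫ u in u0..M, k u ≤ ∫ u in u0..M, (k M / (M - u0)) * (u - u0) := by
    refine intervalIntegral.integral_mono_on hM ?_ ?_ ?_
    · refine ContinuousOn.intervalIntegrable ?_
      rw [uIcc_of_le hM]
      exact hcont.mono fun u hu => h0.trans hu.1
    · refine Continuous.intervalIntegrable ?_ _ _
      fun_prop
    · intro u hu
      have h2 := hc.2 (mem_Ici.2 h0) (mem_Ici.2 (h0.trans hM))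
        (div_nonneg (sub_nonneg.2 hu.2) hMu.le) (div_nonneg (sub_nonneg.2 hu.1) hMu.le)
        (by field_simp; ring)
      simp only [smul_eq_mul] at h2
      have e : (M - u) / (M - u0) * u0 + (u - u0) / (M - u0) * M = u := by
        field_simp
        ring
      rw [e, hk] at h2
      calc k u ≤ _ := h2
        _ = _ := by ring
  refine h1.trans ?_
  rw [intervalIntegral.integral_const_mul, int_sub]
  apply le_of_eq
  field_simp

theorem geo (t τ : ℝ) : max |t| |τ| - t * τ / max |t| |τ| = |t - τ| ∧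
    abs (t * τ / max |t| |τ|) ≤ |τ| ∧ abs (t * τ / max |t| |τ|) ≤ max |t| |τ| ∧
    max |t| |τ| * (t * τ / max |t| |τ|) = t * τ := by
  rcases le_total |t| |τ| with h | h
  · rw [max_eq_right h]
    rcases lt_trichotomy τ 0 with h1 | h1 | h1
    · rw [abs_of_neg h1] at h ⊢
      have h2 := abs_le.1 h
      have e : t * τ / -τ = -t := by
        rw [div_neg, mul_div_assoc, div_self h1.ne, mul_one]
      rw [e, abs_neg]
      refine ⟨?_, h, h, by ring⟩
      rw [abs_of_nonneg (by linarith)]
      ring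
    · subst h1
      rw [abs_zero] at h
      have : t = 0 := abs_eq_zero.1 (le_antisymm h (abs_nonneg t))
      subst this
      simp
    · rw [abs_of_pos h1] at h ⊢
      have h2 := abs_le.1 h
      have e : t * τ / τ = t := by field_simp
      rw [e]
      refine ⟨?_, h, h, by ring⟩
      rw [abs_of_nonpos (by linarith)]
      ring
  · rw [max_eq_left h]
    rcases lt_trichotomy t 0 with h1 | h1 | h1
    · rw [abs_of_neg h1] at h ⊢
      have h2 := abs_le.1 h
      have e : t * τ / -t = -τ := by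
        rw [div_neg, mul_comm, mul_div_assoc, div_self h1.ne, mul_one]
      rw [e, abs_neg]
      refine ⟨?_, le_rfl, h, by ring⟩
      rw [abs_of_nonpos (by linarith)]
      ring
    · subst h1
      rw [abs_zero] at h
      have : τ = 0 := abs_eq_zero.1 (le_antisymm h (abs_nonneg τ))
      subst this
      simp
    · rw [abs_of_pos h1] at h ⊢
      have h2 := abs_le.1 h
      have e : t * τ / t = τ := by field_simp
      rw [e]
      refine ⟨?_, le_rfl, h, by ring⟩
      rw [abs_of_nonneg (by linarith)]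

/-- supporting lines -/
theorem support {h : ℝ → ℝ} (hc : ConvexOn ℝ (Ici 0) h) {u0 : ℝ} (hu : 0 < u0) :
    ∃ m : ℝ, ∀ u, 0 ≤ u → h u0 + m * (u - u0) ≤ h u := by
  have hi : u0 ∈ interior (Ici (0 : ℝ)) := by rw [interior_Ici]; exact hu
  refine ⟨derivWithin h (Ioi u0) u0, fun u hu' => ?_⟩
  rcases lt_trichotomy u u0 with h1 | h1 | h1
  · have h2 := hc.slope_le_leftDeriv_of_mem_interior (mem_Ici.2 hu') hi h1
    have h3 := hc.leftDeriv_le_rightDeriv_of_mem_interior hi
    have h4 := h2.trans h3
    rw [slope_def_field, div_le_iff₀ (by linarith)] at h4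
    linarith
  · subst h1
    simp
  · have h2 := hc.rightDeriv_le_slope_of_mem_interior hi (mem_Ici.2 hu') h1
    rw [slope_def_field, le_div_iff₀ (by linarith)] at h2
    linarith

theorem main : Pool.Agent.W581.HQ.S_KP := by
  intro h hc hcont h0 c τ
  show ConvexOn ℝ univ (fun t : ℝ => (max |t| |τ| * h (max |t| |τ|) / 2 -
    (∫ u in (0 : ℝ)..(max |t| |τ|), h u) + c) + h (max |t| |τ|) / (2 * max |t| |τ|) * (t * τ))
  have hform : ∀ t : ℝ, (max |t| |τ| * h (max |t| |τ|) / 2 -
      (∫ u in (0 : ℝ)..(max |t| |τ|), h u) + c) + h (max |t| |τ|) / (2 * max |t| |τ|) * (t * τ) =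
      (max |t| |τ| + t * τ / max |t| |τ|) * h (max |t| |τ|) / 2 -
        (∫ u in (0 : ℝ)..(max |t| |τ|), h u) + c := by
    intro t
    rw [div_mul_eq_div_div]
    ring
  have hM0 : ∀ t : ℝ, 0 ≤ max |t| |τ| := fun t => (abs_nonneg t).trans (le_max_left _ _)
  refine convex_of_support fun t0 => ?_
  obtain ⟨u0, hu0⟩ : ∃ u0, u0 = max |t0| |τ| := ⟨_, rfl⟩
  have hu0' : 0 ≤ u0 := by rw [hu0]; exact hM0 t0
  have hτu : |τ| ≤ u0 := by rw [hu0]; exact le_max_right _ _
  rcases hu0'.eq_or_lt with hz | hpos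
  · have ht0 : t0 = 0 := by
      have : |t0| ≤ 0 := by rw [hz, hu0]; exact le_max_left _ _
      exact abs_eq_zero.1 (le_antisymm this (abs_nonneg _))
    have hτ0 : τ = 0 := by
      rw [← hz] at hτu
      exact abs_eq_zero.1 (le_antisymm hτu (abs_nonneg _))
    refine ⟨fun _ => c, convexOn_const c convex_univ, fun t => ?_, ?_⟩
    · rw [hform, hτ0]
      have h1 := trapezoid hc hcont le_rfl (hM0 t) h0
      rw [hτ0] at h1
      have h2 : t * 0 / max |t| |(0 : ℝ)| = 0 := by simp
      rw [h2]
      linarith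
    · rw [hform, ht0, hτ0]
      simp
  · obtain ⟨m0, hm0⟩ := support hc hpos
    obtain ⟨l0, hl0⟩ : ∃ l0, l0 = h u0 - m0 * u0 := ⟨_, rfl⟩
    have hl0' : l0 ≤ 0 := by
      have := hm0 0 le_rfl
      rw [h0] at this
      rw [hl0]
      linarith
    obtain ⟨e, he⟩ : ∃ e : ℝ → ℝ, e = fun u => h u - (l0 + m0 * u) := ⟨_, rfl⟩
    have he0 : ∀ u, 0 ≤ u → 0 ≤ e u := by
      intro u hu
      rw [he]
      have := hm0 u hu
      simp only
      rw [hl0]
      linarith
    have heu : e u0 = 0 := by
      rw [he]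
      simp only
      rw [hl0]
      ring
    have hec : ConvexOn ℝ (Ici 0) e := by
      refine ⟨convex_Ici 0, ?_⟩
      intro x hx y hy a b ha hb hab
      have h1 := hc.2 hx hy ha hb hab
      rw [he]
      simp only [smul_eq_mul] at h1 ⊢
      have hb' : b = 1 - a := by linarith
      subst hb'
      nlinarith
    have hecont : ContinuousOn e (Ici 0) := by
      rw [he]
      exact hcont.sub (by fun_prop)
    have hint : ∀ (k : ℝ → ℝ), ContinuousOn k (Ici 0) → ∀ x y : ℝ, 0 ≤ x → 0 ≤ y →
        IntervalIntegrable k volume x y := by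
      intro k hk x y hx hy
      refine ContinuousOn.intervalIntegrable (hk.mono ?_)
      intro u hu
      rw [mem_uIcc] at hu
      rcases hu with hu | hu
      · exact hx.trans hu.1
      · exact hy.trans hu.1
    have hih : ∀ M : ℝ, 0 ≤ M → ∫ u in (0 : ℝ)..M, h u =
        (∫ u in (0 : ℝ)..M, e u) + (l0 * M + m0 * M ^ 2 / 2) := by
      intro M hM
      have e1 : ∀ u, h u = e u + (l0 + m0 * u) := by
        intro u
        rw [he]
        simp
      simp only [e1]
      rw [intervalIntegral.integral_add (hint e hecont 0 M le_rfl hM)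
        ((by fun_prop : Continuous fun u : ℝ => l0 + m0 * u).intervalIntegrable _ _)]
      congr 1
      rw [intervalIntegral.integral_add (by simp)
        ((by fun_prop : Continuous fun u : ℝ => m0 * u).intervalIntegrable _ _),
        intervalIntegral.integral_const, intervalIntegral.integral_const_mul, integral_id,
        smul_eq_mul]
      ring
    have hφ : ∀ t : ℝ, (max |t| |τ| + t * τ / max |t| |τ|) * h (max |t| |τ|) / 2 -
        (∫ u in (0 : ℝ)..(max |t| |τ|), h u) + c =
        ((max |t| |τ| + t * τ / max |t| |τ|) * e (max |t| |τ|) / 2 -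
        (∫ u in (0 : ℝ)..(max |t| |τ|), e u)) + (-l0 / 2 * |t - τ| + m0 * τ / 2 * t + c) := by
      intro t
      obtain ⟨g1, -, -, g4⟩ := geo t τ
      rw [hih _ (hM0 t), ← g1]
      have e1 : h (max |t| |τ|) = e (max |t| |τ|) + (l0 + m0 * max |t| |τ|) := by
        rw [he]
        simp
      rw [e1]
      linear_combination (m0 / 2) * g4
    refine ⟨fun t => -l0 / 2 * |t - τ| + m0 * τ / 2 * t + (c - ∫ u in (0 : ℝ)..u0, e u),
      ?_, ?_, ?_⟩
    · refine ⟨convex_univ, ?_⟩
      intro x _ y _ a b ha hb hab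
      simp only [smul_eq_mul]
      have hb' : b = 1 - a := by linarith
      have h1 : |a * x + b * y - τ| ≤ a * |x - τ| + b * |y - τ| := by
        have e1 : a * x + b * y - τ = a * (x - τ) + b * (y - τ) := by
          rw [hb']; ring
        rw [e1]
        refine (abs_add_le _ _).trans ?_
        rw [abs_mul, abs_mul, abs_of_nonneg ha, abs_of_nonneg hb]
      have h2 := mul_le_mul_of_nonneg_left h1 (show 0 ≤ -l0 / 2 by linarith)
      subst hb'
      nlinarith
    · intro t
      rw [hform, hφ]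
      obtain ⟨-, g2, g3, -⟩ := geo t τ
      obtain ⟨M, hM⟩ : ∃ M, M = max |t| |τ| := ⟨_, rfl⟩
      have hMn : 0 ≤ M := by rw [hM]; exact hM0 t
      rw [← hM] at g2 g3 ⊢
      obtain ⟨r, hr⟩ : ∃ r, r = t * τ / M := ⟨_, rfl⟩
      rw [← hr] at g2 g3 ⊢
      have r1 := (abs_le.1 g3).1
      have r2 := (abs_le.1 (g2.trans hτu)).1
      have hadd : (∫ u in (0 : ℝ)..u0, e u) + ∫ u in u0..M, e u = ∫ u in (0 : ℝ)..M, e u :=
        intervalIntegral.integral_add_adjacent_intervals (hint e hecont _ _ le_rfl hu0')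
          (hint e hecont _ _ hu0' hMn)
      have hkey : ∫ u in u0..M, e u ≤ (M + r) * e M / 2 := by
        rcases le_total u0 M with h1 | h1
        · refine (trapezoid hec hecont hu0' h1 heu).trans ?_
          have := mul_le_mul_of_nonneg_right (show M - u0 ≤ M + r by linarith) (he0 M hMn)
          linarith
        · rw [intervalIntegral.integral_symm]
          have h2 : 0 ≤ ∫ u in M..u0, e u :=
            intervalIntegral.integral_nonneg h1 fun u hu => he0 u (hMn.trans hu.1)
          have h3 : 0 ≤ (M + r) * e M := mul_nonneg (by linarith) (he0 M hMn)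
          linarith
      linarith
    · rw [hform, hφ, ← hu0, heu]
      ring

end Pool.Agent.W368.HQ
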